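import Pool.Agent.H30Z.AP.Main

/-!
# `ℵ₁`-amalgamation for `L_{ω₁,ω}`-sentences is not absolute

`CTM` (countable transitive model of ZFC) is defined in `Pool.Agent.Helper212.CohenE.Defs`, the
other notions in `Pool.Agent.H30Z.AP.Defs`. The sentence says: for all `a, b` there is `r` whose
`P`-type differs from that of every `s` with `E a s` and `E s b`. Its models of size `ℵ₁` have the
amalgamation property exactly when CH fails.
-/

namespace Pool.Agent.Results.MP_8322c3_lc.NotAbsolute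

open CohenE Pool.Agent.H30Z.AP

/-- There are transitive models `V ⊆ W` of ZFC with the same ordinals and an
`L_{ω₁,ω}`-sentence `φ ∈ V` such that exactly one of `V`, `W` satisfies `ℵ₁ ∈ AP-spec(φ)`. -/
theorem result : ∃ V W : Set ZFSet.{0}, CTM V ∧ CTM W ∧ V ⊆ W ∧
    (∀ x : ZFSet.{0}, x.IsOrdinal → (x ∈ V ↔ x ∈ W)) ∧
    ∃ φ : IFml, Closed 0 φ ∧ code φ ∈ V ∧ ¬ (Aleph1InSpec V φ ↔ Aleph1InSpec W φ) :=
  main

end Pool.Agent.Results.MP_8322c3_lc.NotAbsolute
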